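import Pool.Agent.helper29.PQ.Spec
import Pool.Agent.helper61.TG.WT6

namespace Pool.Agent.helper29.PQ

open Finset Pool.Agent.helper35.LinPrimes Pool.Agent.helper74.TG Pool.Agent.helper74.TG.h61

theorem C3_orth (q : ℕ) (hq : 0 < q) (m : ℤ) :
    ∑ a ∈ range q, ee ((a : ℝ) * ((m : ℝ) / q)) = if (q : ℤ) ∣ m then (q : ℂ) else 0 := by
  have hqr : (q : ℝ) ≠ 0 := by positivity
  simp only [ee_nat_mul]
  split_ifs with h
  · obtain ⟨j, rfl⟩ := h
    have h1 : (((q : ℤ) * j : ℤ) : ℝ) / q = (j : ℝ) := by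
      push_cast; field_simp
    rw [h1, ee_int]; simp
  · have h1 : ee ((m : ℝ) / q) ≠ 1 := by
      intro h1
      obtain ⟨j, hj⟩ := ee_eq_one h1
      rw [div_eq_iff hqr] at hj
      have hj' : m = j * q := by exact_mod_cast hj
      exact h ⟨j, by rw [hj', mul_comm]⟩
    rw [geom_sum_eq h1 q]
    have h3 : ee ((m : ℝ) / q) ^ q = 1 := by
      rw [← ee_nat_mul, mul_div_cancel₀ _ hqr, ee_int]
    rw [h3, sub_self, zero_div]

theorem C3 : C3_stmt := by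
  intro q T hq
  have hqr : (q : ℝ) ≠ 0 := by positivity
  have key : ∀ a : ℕ, ((‖∑ t ∈ T, ee ((a : ℝ) * t / q)‖ ^ 2 : ℝ) : ℂ)
      = ∑ t ∈ T, ∑ s ∈ T, ee ((a : ℝ) * ((((t : ℤ) - (s : ℤ) : ℤ) : ℝ) / q)) := by
    intro a
    have h1 : ((‖∑ t ∈ T, ee ((a : ℝ) * t / q)‖ ^ 2 : ℝ) : ℂ)
        = (∑ t ∈ T, ee ((a : ℝ) * t / q)) * (starRingEnd ℂ) (∑ t ∈ T, ee ((a : ℝ) * t / q)) := by
      rw [Complex.mul_conj, Complex.normSq_eq_norm_sq]
    rw [h1, map_sum, Finset.sum_mul_sum]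
    refine Finset.sum_congr rfl fun t _ => Finset.sum_congr rfl fun s _ => ?_
    rw [← ee_neg, ← ee_add]
    congr 1
    push_cast
    ring
  have main : ((∑ a ∈ range q, ‖∑ t ∈ T, ee ((a : ℝ) * t / q)‖ ^ 2 : ℝ) : ℂ)
      = ((q * (pc T q : ℝ) : ℝ) : ℂ) := by
    rw [Complex.ofReal_sum]
    simp only [key]
    rw [Finset.sum_comm]
    have h2 : ∀ t ∈ T, ∑ a ∈ range q, ∑ s ∈ T, ee ((a : ℝ) * ((((t : ℤ) - (s : ℤ) : ℤ) : ℝ) / q))
        = ∑ s ∈ T, if (q : ℤ) ∣ (t : ℤ) - s then (q : ℂ) else 0 := by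
      intro t _
      rw [Finset.sum_comm]
      exact Finset.sum_congr rfl fun s _ => C3_orth q hq _
    rw [Finset.sum_congr rfl h2]
    unfold pc
    rw [Finset.card_filter, Nat.cast_sum, Finset.sum_product, Finset.mul_sum, Complex.ofReal_sum]
    refine Finset.sum_congr rfl fun t _ => ?_
    rw [Finset.mul_sum, Complex.ofReal_sum]
    refine Finset.sum_congr rfl fun s _ => ?_
    have h3 : ((q : ℤ) ∣ (t : ℤ) - s) ↔ t ≡ s [MOD q] := by
      rw [Nat.ModEq.comm, Nat.modEq_iff_dvd]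
    by_cases h : t ≡ s [MOD q]
    · rw [if_pos (h3.2 h), if_pos h]; simp
    · rw [if_neg (fun h' => h (h3.1 h')), if_neg h]; simp
  exact_mod_cast main

end Pool.Agent.helper29.PQ
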