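import Pool.Agent.helper7.PQ.Spec
import Pool.Agent.helper83.OD.AllO

set_option autoImplicit false

/-! Row SUMP: the identity for a pair of primes -/

open Finset PowerSeries

noncomputable section

namespace Pool.Agent.PQ

open Pool.Agent.EP

theorem SUMP_mem (b N u : ℕ) : u ∈ uB b N ↔ u.Coprime 6 ∧ 2 ^ b * u ^ 2 ≤ N := by
  unfold uB
  rw [Finset.mem_filter, Finset.mem_range]
  constructor
  · exact fun h => h.2
  · intro h
    refine ⟨?_, h⟩
    have h1 : 1 ≤ 2 ^ b := Nat.one_le_two_pow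
    have h2 : u ≤ u ^ 2 := Nat.le_self_pow (by norm_num) u
    have h3 : u ^ 2 ≤ 2 ^ b * u ^ 2 := Nat.le_mul_of_pos_left _ (by omega)
    have h4 := h.2
    omega

theorem SUMP_even (b u N : ℕ) (hb : b % 2 = 1) (hN : N % 2 = 1) (h : 2 ^ b * u ^ 2 ≤ N) :
    2 ^ b * u ^ 2 < N := by
  refine lt_of_le_of_ne h ?_
  intro he
  obtain ⟨c, hc⟩ : ∃ c, b = c + 1 := ⟨b - 1, by omega⟩
  rw [hc, pow_succ] at he
  have : 2 * (2 ^ c * u ^ 2) = N := by
    rw [← he]
    ring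
  omega

theorem SUMP (hGID : GID_stmt) (hJGC : JGC_stmt) : SUMP_stmt := by
  intro b Q₁ Q₂ P P' hb hP hP' hk hM hex h1 h2
  have hg := hGID b (Q₁ * P) hb hk ((Q₂ * P' : ℕ) : ℤ)
  have hcast : (((Q₂ * P' : ℕ) : ℤ) + ((Q₁ * P : ℕ) : ℤ)).toNat = Q₂ * P' + Q₁ * P := by
    omega
  rw [hcast] at hg
  unfold RB
  rw [← hg]
  have hk0 : 0 < Q₁ * P := by omega
  have hM0 : 0 < Q₂ * P' := by omega
  congr 1
  · have hsub : uB b (Q₂ * P') ⊆ uB b (Q₂ * P' + Q₁ * P) := by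
      intro u hu
      rw [SUMP_mem] at hu ⊢
      exact ⟨hu.1, by omega⟩
    rw [← Finset.sum_subset hsub ?_]
    · refine Finset.sum_congr rfl fun u hu => ?_
      rw [SUMP_mem] at hu
      have hlt := SUMP_even b u (Q₂ * P') hb hM hu.2
      have hco : Nat.Coprime (Q₁ * P) (Q₂ * P' - 2 ^ b * u ^ 2) := by
        refine Nat.Coprime.mul_left (h1 u hlt) ?_
        rw [hP.coprime_iff_not_dvd]
        intro hd
        exact hex (Or.inr (Or.inl ⟨u, hlt, hd⟩))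
      have h3 := hJGC (Q₁ * P) (Q₂ * P' - 2 ^ b * u ^ 2) hk0 (by omega) hco
      rw [← h3]
      congr 1
      rw [Nat.cast_sub hu.2]
      push_cast
      ring
    · intro u hu hnu
      rw [SUMP_mem] at hu hnu
      have hgt : Q₂ * P' < 2 ^ b * u ^ 2 := by
        by_contra h
        exact hnu ⟨hu.1, not_lt.1 h⟩
      have hneg : (((Q₂ * P' : ℕ) : ℤ) - 2 ^ b * (u : ℤ) ^ 2) < 0 := by
        have : ((Q₂ * P' : ℕ) : ℤ) < ((2 ^ b * u ^ 2 : ℕ) : ℤ) := by exact_mod_cast hgt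
        push_cast at this ⊢
        linarith
      rw [JN (Q₁ * P) _ hk0 hneg, if_neg]
      intro he
      refine hex (Or.inl ⟨u, ?_⟩)
      have : ((Q₁ * P + Q₂ * P' : ℕ) : ℤ) = ((2 ^ b * u ^ 2 : ℕ) : ℤ) := by
        push_cast at he ⊢
        linarith
      exact_mod_cast this
  · refine Finset.sum_congr rfl fun u hu => ?_
    rw [SUMP_mem] at hu
    have hlt := SUMP_even b u (Q₁ * P) hb (by omega) hu.2
    have hco : Nat.Coprime (Q₁ * P - 2 ^ b * u ^ 2) (Q₂ * P') := by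
      refine Nat.Coprime.mul_right (h2 u hlt) ?_
      rw [Nat.coprime_comm, hP'.coprime_iff_not_dvd]
      intro hd
      exact hex (Or.inr (Or.inr ⟨u, hlt, hd⟩))
    rw [hJGC (Q₁ * P - 2 ^ b * u ^ 2) (Q₂ * P') (by omega) hM0 hco]

end Pool.Agent.PQ
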